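import Pool.Agent.H77.BD.Targets

/-!
EXT: extraction of the coefficients.
-/

set_option autoImplicit false

open Set Matrix Pool.Agent.H77.BC Pool.Agent.H77.BD

namespace Pool.Agent.H49.BCT

/-- a polynomial of degree two without constant term which vanishes identically -/
theorem two_zero {F V : Type} [Field F] [Infinite F] [AddCommGroup V] [Module F V] (A B : V)
    (h : ∀ t : F, t • A + t ^ 2 • B = 0) : A = 0 ∧ B = 0 := by
  classical
  obtain ⟨t, ht⟩ := Infinite.exists_notMem_finset ({0, 1} : Finset F)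
  have ht0 : t ≠ 0 := fun h0 => ht (by simp [h0])
  have ht1 : t ≠ 1 := fun h1 => ht (by simp [h1])
  have h1 := h 1
  rw [one_smul, one_pow, one_smul] at h1
  have hA : A = -B := eq_neg_of_add_eq_zero_left h1
  have h2 := h t
  rw [hA, smul_neg, ← sub_eq_neg_add, ← sub_smul] at h2
  have h3 : t ^ 2 - t ≠ 0 := by
    have : t ^ 2 - t = t * (t - 1) := by ring
    rw [this]
    exact mul_ne_zero ht0 (sub_ne_zero.2 ht1)
  have hB : B = 0 := (smul_eq_zero.1 h2).resolve_left h3
  exact ⟨by rw [hA, hB, neg_zero], hB⟩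

theorem pf_EXT : T_EXT := by
  intro l C hC F _ _ g γ hg h v
  have key := two_zero (F := F) (g (nf γ v) - nf γ (g v)) (g (qf γ v) - qf γ (g v)) (fun t => by
    have h1 := h t v
    rw [Xf_eq, Xf_eq, hg.1, hg.1, hg.2.1, hg.2.1] at h1
    have h2 : t • g (nf γ v) + t ^ 2 • g (qf γ v) = t • nf γ (g v) + t ^ 2 • qf γ (g v) := by
      rw [add_assoc, add_assoc] at h1
      exact add_left_cancel h1
    rw [smul_sub, smul_sub, ← sub_eq_zero.2 h2]
    abel)
  exact ⟨sub_eq_zero.1 key.1, sub_eq_zero.1 key.2⟩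

end Pool.Agent.H49.BCT
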