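import Pool.Agent.H77.BD.Targets

/-!
LIN: the elements of the Chevalley group are linear and preserve the bracket.
-/

set_option autoImplicit false

open Set Matrix Pool.Agent.H77.BC Pool.Agent.H77.BD

namespace Pool.Agent.H49.BCT

theorem pf_LIN (hXAD : T_XAD) (hXBR : T_XBR) : T_LIN := by
  intro l C hC F _ _ g hg
  unfold Chev at hg
  induction hg using Subgroup.closure_induction with
  | mem g hg =>
    obtain ⟨β, t, h⟩ := hg
    refine ⟨fun u v => ?_, fun a v => ?_, fun v w => ?_⟩
    · rw [h, h, h, Xf_add]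
    · rw [h, h, Xf_smul]
    · rw [h, h, h]
      exact hXBR hC β t v w
  | one => exact ⟨fun _ _ => rfl, fun _ _ => rfl, fun _ _ => rfl⟩
  | mul a b _ _ ha hb =>
    refine ⟨fun u v => ?_, fun c v => ?_, fun v w => ?_⟩
    · simp only [Equiv.Perm.mul_apply]
      rw [hb.1, ha.1]
    · simp only [Equiv.Perm.mul_apply]
      rw [hb.2.1, ha.2.1]
    · simp only [Equiv.Perm.mul_apply]
      rw [hb.2.2, ha.2.2]
  | inv a _ ha =>
    have e : ∀ v, a (a⁻¹ v) = v := fun v => Equiv.apply_symm_apply a v
    refine ⟨fun u v => a.injective ?_, fun c v => a.injective ?_, fun v w => a.injective ?_⟩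
    · rw [e, ha.1, e, e]
    · rw [e, ha.2.1, e]
    · rw [e, ha.2.2, e, e]

end Pool.Agent.H49.BCT
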